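import Pool.Agent.W574.HS.Flat

set_option autoImplicit false
set_option linter.unusedSectionVars false
set_option linter.unusedVariables false

/-! # For a homogeneous polynomial, local functional equations at the origin are global -/

namespace Pool.Agent.W574.MO

open MvPolynomial Pool.Agent.W574.HS Pool.Agent.H628R4.TP

variable {σ : Type}

/-- an operator of weight `k` -/
def HasWt (Q : Module.End ℂ (MvPolynomial σ ℂ)) (k : ℤ) : Prop :=
  ∀ (e : ℕ) (p : MvPolynomial σ ℂ), p.IsHomogeneous e →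
    (∀ e' : ℕ, (e' : ℤ) = e + k → (Q p).IsHomogeneous e') ∧ ((e : ℤ) + k < 0 → Q p = 0)

theorem HasWt.mul {Q Q' : Module.End ℂ (MvPolynomial σ ℂ)} {k k' : ℤ} (h : HasWt Q k)
    (h' : HasWt Q' k') : HasWt (Q * Q') (k + k') := by
  intro e p hp
  obtain ⟨h1, h2⟩ := h' e p hp
  rw [Module.End.mul_apply]
  by_cases hneg : (e : ℤ) + k' < 0
  · rw [h2 hneg, map_zero]
    exact ⟨fun _ _ => isHomogeneous_zero _ _ _, fun _ => rfl⟩
  · obtain ⟨e1, he1⟩ := Int.eq_ofNat_of_zero_le (not_lt.1 hneg)
    obtain ⟨h3, h4⟩ := h e1 (Q' p) (h1 e1 he1.symm)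
    exact ⟨fun e' he' => h3 e' (by rw [he', ← he1]; ring), fun hlt => h4 (by rw [← he1]; linarith)⟩

theorem hasWt_one : HasWt (1 : Module.End ℂ (MvPolynomial σ ℂ)) 0 := by
  intro e p hp
  refine ⟨?_, ?_⟩
  · intro e' he'
    have : e' = e := by omega
    rw [this, Module.End.one_apply]
    exact hp
  · intro h
    omega

theorem hasWt_X (i : σ) : HasWt (LinearMap.mulLeft ℂ (X i : MvPolynomial σ ℂ)) 1 := by
  intro e p hp
  refine ⟨?_, ?_⟩
  · intro e' he'
    have : e' = 1 + e := by omega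
    rw [this, LinearMap.mulLeft_apply]
    exact (isHomogeneous_X ℂ i).mul hp
  · intro h
    omega

theorem hasWt_pderiv (i : σ) : HasWt ((pderiv i : Derivation ℂ (MvPolynomial σ ℂ)
    (MvPolynomial σ ℂ)) : MvPolynomial σ ℂ →ₗ[ℂ] MvPolynomial σ ℂ) (-1) := by
  intro e p hp
  have h1 := hp.pderiv (i := i)
  refine ⟨?_, ?_⟩
  · intro e' he'
    have : e' = e - 1 := by omega
    rw [this]
    exact h1
  · intro h
    have h0 : e = 0 := by omega
    subst h0
    have h2 : p = C (coeff 0 p) := (totalDegree_eq_zero_iff_eq_C.1 (by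
      have := hp.totalDegree_le
      omega))
    change pderiv i p = 0
    rw [h2, pderiv_C]

theorem exists_wt {Q : Module.End ℂ (MvPolynomial σ ℂ)}
    (hQ : Q ∈ Submonoid.closure (Set.range (fun i => LinearMap.mulLeft ℂ (X i : MvPolynomial σ ℂ))
      ∪ Set.range (fun i => ((pderiv i : Derivation ℂ (MvPolynomial σ ℂ)
        (MvPolynomial σ ℂ)) : MvPolynomial σ ℂ →ₗ[ℂ] MvPolynomial σ ℂ)))) :
    ∃ k : ℤ, HasWt Q k := by
  induction hQ using Submonoid.closure_induction with
  | mem x hx =>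
    rcases hx with ⟨i, rfl⟩ | ⟨i, rfl⟩
    · exact ⟨1, hasWt_X i⟩
    · exact ⟨-1, hasWt_pderiv i⟩
  | one => exact ⟨0, hasWt_one⟩
  | mul x y _ _ hx hy =>
    obtain ⟨k, hk⟩ := hx
    obtain ⟨l, hl⟩ := hy
    exact ⟨k + l, hk.mul hl⟩

/-- the component of weight `k` of an operator -/
theorem exists_comp (Q : Module.End ℂ (MvPolynomial σ ℂ)) (hQ : Q ∈ weylS σ) (k : ℤ) :
    ∃ R ∈ weylS σ, ∀ (e e' : ℕ) (p : MvPolynomial σ ℂ), p.IsHomogeneous e → (e' : ℤ) = e + k →
      homogeneousComponent e' (Q p) = R p := by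
  have hQ' := hQ
  rw [weylS, ← Subalgebra.mem_toSubmodule, Algebra.adjoin_eq_span] at hQ'
  induction hQ' using Submodule.span_induction with
  | mem w hw =>
    obtain ⟨l, hl⟩ := exists_wt hw
    have hw' : w ∈ weylS σ := by
      rw [weylS, ← Subalgebra.mem_toSubmodule, Algebra.adjoin_eq_span]
      exact Submodule.subset_span hw
    by_cases hkl : k = l
    · subst hkl
      refine ⟨w, hw', fun e e' p hp he' => ?_⟩
      exact homogeneousComponent_eq_self ((hl e p hp).1 e' he')
    · refine ⟨0, Subalgebra.zero_mem _, fun e e' p hp he' => ?_⟩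
      rw [LinearMap.zero_apply]
      by_cases hneg : (e : ℤ) + l < 0
      · rw [(hl e p hp).2 hneg, map_zero]
      · obtain ⟨e1, he1⟩ := Int.eq_ofNat_of_zero_le (not_lt.1 hneg)
        have h1 := (hl e p hp).1 e1 he1.symm
        rw [homogeneousComponent_of_mem h1, if_neg]
        intro h2
        apply hkl
        omega
  | zero => exact ⟨0, Subalgebra.zero_mem _, fun e e' p hp he' => by simp⟩
  | add x y hx hy ihx ihy =>
    have hx' : x ∈ weylS σ := by
      rw [weylS, ← Subalgebra.mem_toSubmodule, Algebra.adjoin_eq_span]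
      exact hx
    have hy' : y ∈ weylS σ := by
      rw [weylS, ← Subalgebra.mem_toSubmodule, Algebra.adjoin_eq_span]
      exact hy
    obtain ⟨R, hR, h1⟩ := ihx hx'
    obtain ⟨R', hR', h2⟩ := ihy hy'
    refine ⟨R + R', Subalgebra.add_mem _ hR hR', fun e e' p hp he' => ?_⟩
    rw [LinearMap.add_apply, map_add, h1 e e' p hp he', h2 e e' p hp he', LinearMap.add_apply]
  | smul a x hx ihx =>
    have hx' : x ∈ weylS σ := by
      rw [weylS, ← Subalgebra.mem_toSubmodule, Algebra.adjoin_eq_span]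
      exact hx
    obtain ⟨R, hR, h1⟩ := ihx hx'
    refine ⟨a • R, Subalgebra.smul_mem _ hR a, fun e e' p hp he' => ?_⟩
    rw [LinearMap.smul_apply, map_smul, h1 e e' p hp he', LinearMap.smul_apply]

theorem comp_mul (H G : MvPolynomial σ ℂ) (e : ℕ) (hG : G.IsHomogeneous e) :
    homogeneousComponent e (H * G) = C (constantCoeff H) * G := by
  conv_lhs => rw [← sum_homogeneousComponent H]
  rw [Finset.sum_mul, map_sum, Finset.sum_eq_single 0]
  · rw [homogeneousComponent_zero]
    have h1 : (C (coeff 0 H) * G).IsHomogeneous e := by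
      have := (isHomogeneous_C σ (coeff 0 H)).mul hG
      rwa [zero_add] at this
    rw [homogeneousComponent_eq_self h1]
    rfl
  · intro i _ hi
    have h1 := (homogeneousComponent_isHomogeneous i H).mul hG
    rw [homogeneousComponent_of_mem h1, if_neg (by omega)]
  · intro h
    exact absurd (Finset.mem_range.2 (Nat.succ_pos _)) h

/-- **For a homogeneous polynomial, local functional equations at the origin are global.** -/
theorem global_of_local [Finite σ] (F : MvPolynomial σ ℂ) (hF : F ≠ 0) (D : ℕ)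
    (hD : F.IsHomogeneous D) (b : Polynomial ℂ) (hb : IsLocalBFunction F b) :
    IsBFunction F b := by
  classical
  obtain ⟨H, P, hH, hP⟩ := algebraic_of_local F hF b hb
  choose R hR1 hR2 using fun m : ℕ => exists_comp (P m).1 (P m).2 (-(D : ℤ))
  set h0 : ℂ := constantCoeff H with hh0
  refine ⟨Finsupp.onFinset P.support (fun m => if m ∈ P.support then
    (h0⁻¹ • ⟨R m, hR1 m⟩ : weylS σ) else 0) (fun m hm => by
      by_contra h
      exact hm (if_neg h)), fun s => ?_⟩
  have h1 := congrArg (homogeneousComponent (D * s)) (hP s)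
  have hFs : (C (b.eval (s : ℂ)) * F ^ s).IsHomogeneous (D * s) := by
    have := (isHomogeneous_C σ (b.eval (s : ℂ))).mul (hD.pow s)
    rwa [zero_add] at this
  rw [comp_mul H _ (D * s) hFs, Finsupp.sum, map_sum] at h1
  have h2 : ∀ m ∈ P.support, homogeneousComponent (D * s)
      (((s : ℂ) ^ m) • (P m : Module.End ℂ (MvPolynomial σ ℂ)) (F ^ (s + 1)))
      = ((s : ℂ) ^ m) • R m (F ^ (s + 1)) := by
    intro m _
    rw [map_smul, hR2 m (D * (s + 1)) (D * s) _ (hD.pow (s + 1)) (by push_cast; ring)]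
  rw [Finset.sum_congr rfl h2] at h1
  rw [Finsupp.onFinset_sum]
  · have h3 : C (b.eval (s : ℂ)) * F ^ s = C h0⁻¹ * (C h0 * (C (b.eval (s : ℂ)) * F ^ s)) := by
      rw [← mul_assoc, ← map_mul, inv_mul_cancel₀ hH, map_one, one_mul]
    rw [h3, h1, Finset.mul_sum]
    refine Finset.sum_congr rfl fun m hm => ?_
    rw [if_pos hm]
    change C h0⁻¹ * (((s : ℂ) ^ m) • R m (F ^ (s + 1))) =
      ((s : ℂ) ^ m) • ((h0⁻¹ • R m) (F ^ (s + 1)))
    rw [LinearMap.smul_apply, C_mul', smul_comm]
  · intro m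
    simp

end Pool.Agent.W574.MO
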