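import Pool.Agent.W574.MO.Point
import Pool.Agent.W574.HS.LocalForm

set_option autoImplicit false
set_option linter.unusedSectionVars false
set_option linter.unusedVariables false

/-! # The denominators of the motivic zeta function of an ideal of the plane -/

namespace Pool.Agent.W574.MO

open MvPolynomial Pool.Agent.W574.SM Pool.Agent.W574.LM Pool.Agent.W574.HS

variable {M : Type} [CommRing M] (L : Mˣ)

variable {ι : Type} [Fintype ι] [DecidableEq ι]

theorem locEq_one {σ : Type} (f : ι → MvPolynomial σ ℂ) (b : Polynomial ℂ)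
    (hb : IsFunctionalEq f b) : IsLocEq 1 f b := by
  obtain ⟨S, P, h1, h2⟩ := hb
  exact ⟨S, P, h1, fun s => by rw [one_mul]; exact h2 s⟩

/-- **The denominators of the motivic zeta function of an ideal of the plane.** -/
theorem plane_mot (f : ι → MP) (b : Polynomial ℂ) (hb : IsFunctionalEq f b) (Z : PowerSeries M)
    (hZ : PlaneMot L f Z) : Z ∈ DenRing L (Kb b) := by
  obtain ⟨u₀, r, h, m, w, S, ZP, hC, hP, rfl⟩ := hZ
  refine Subring.add_mem _ (Subring.add_mem _ (C_mem _) ?_) ?_
  · refine Subring.sum_mem _ fun i _ => Subring.mul_mem _ (C_mem _) (mf_mem le_rfl fun _ => ?_)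
    have := curve_root f b hb (h i) (m i) (hC i)
    rw [Kb, Nat.cast_one]
    exact this
  · refine Subring.sum_mem _ fun P hPS => ?_
    exact point_mot L f b 1 (locEq_one f b hb) P (by rw [map_one]; exact one_ne_zero) _ (hP P hPS)

theorem translate_zero (f : ι → MP) : (fun j => translate 0 (f j)) = f := by
  funext j
  have h6 : (translate 0 : MvPolynomial (Fin 2) ℂ →ₐ[ℂ] MvPolynomial (Fin 2) ℂ)
      = AlgHom.id ℂ _ := by
    ext1 i
    change aeval (fun i => X i + C ((0 : Fin 2 → ℂ) i)) (X i : MvPolynomial (Fin 2) ℂ) = _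
    rw [aeval_X]
    simp
  rw [h6]
  rfl

theorem geo11_mem (b : Polynomial ℂ) (h : b.eval (-1) = 0) : geo L 1 1 ∈ DenRing L (Kb b) := by
  refine geo_mem le_rfl le_rfl ?_
  rw [Kb, Nat.cast_one, div_one]
  exact h

theorem minus_one_form {σ : Type} [Fintype σ] [DecidableEq σ] (f : ι → MvPolynomial σ ℂ)
    (hf : ∃ j, f j ≠ 0) (b : Polynomial ℂ)
    (hb : Pool.Agent.H628R4.TP.IsBFunction (univ f) b) : b.eval (-1) = 0 := by
  obtain ⟨P, hP⟩ := hb
  refine minus_one (univ f) 1 (univ_ne_zero f hf) (univ_not_unit f) b P fun s => ?_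
  rw [one_mul]
  exact hP s

/-- the global version -/
theorem form_mot (f : ι → MP) (hf : ∃ j, f j ≠ 0) (b : Polynomial ℂ)
    (hb : Pool.Agent.H628R4.TP.IsBFunction (univ f) b) (Z : PowerSeries M)
    (hZ : PlaneMot L f Z) (c : M) : PowerSeries.C c * Z * geo L 1 1 ∈ DenRing L (Kb b) :=
  Subring.mul_mem _ (Subring.mul_mem _ (C_mem _)
    (plane_mot L f b (functionalEq_of_univ f b hb) Z hZ))
    (geo11_mem L b (minus_one_form f hf b hb))

/-- the local version at the points `(P, 0)` with the global Bernstein-Sato polynomial -/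
theorem form_mot_at (f : ι → MP) (hf : ∃ j, f j ≠ 0) (b : Polynomial ℂ)
    (hb : Pool.Agent.H628R4.TP.IsBFunction (univ f) b) (P : Fin 2 → ℂ) (Z : PowerSeries M)
    (hZ : MotLocal L (fun j => translate P (f j)) 0 1 0 1 Z) (c : M) :
    PowerSeries.C c * Z * (PowerSeries.X * geo L 1 1) ∈ DenRing L (Kb b) :=
  Subring.mul_mem _ (Subring.mul_mem _ (C_mem _)
    (point_mot L f b 1 (locEq_one f b (functionalEq_of_univ f b hb)) P
      (by rw [map_one]; exact one_ne_zero) Z hZ))
    (Subring.mul_mem _ X_mem (geo11_mem L b (minus_one_form f hf b hb)))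

/-- the local version at the origin with the local Bernstein-Sato polynomial -/
theorem local_form_mot (f : ι → MP) (hf : ∃ j, f j ≠ 0) (b : Polynomial ℂ)
    (hb : Pool.Agent.H628R4.TP.IsLocalBFunction (univ f) b) (Z : PowerSeries M)
    (hZ : MotLocal L f 0 1 0 1 Z) (c : M) :
    PowerSeries.C c * Z * (PowerSeries.X * geo L 1 1) ∈ DenRing L (Kb b) := by
  obtain ⟨H, P, hH, hP⟩ := algebraic_of_local (univ f) (univ_ne_zero f hf) b hb
  refine Subring.mul_mem _ (Subring.mul_mem _ (C_mem _) ?_)
    (Subring.mul_mem _ X_mem (geo11_mem L b ?_))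
  · refine point_mot L f b (hat H 0) (locEq_of_univ f b H P hP) 0 ?_ Z ?_
    · rw [eval_zero, cc_hat]
      exact hH
    · rw [translate_zero]
      exact hZ
  · refine minus_one (univ f) H (univ_ne_zero f hf) ?_ b P hP
    rintro ⟨G, rfl⟩
    rw [map_mul, cc_univ, zero_mul] at hH
    exact hH rfl

end Pool.Agent.W574.MO
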