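import Pool.Agent.W574.MO.FormDefs
import Pool.Agent.W574.MO.Plane
import Pool.Agent.W574.MO.Homog
import Pool.Agent.W574.CN.Cone

set_option autoImplicit false
set_option linter.unusedSectionVars false
set_option linter.unusedVariables false

/-! # The denominators of the motivic zeta functions -/

namespace Pool.Agent.W574.MO

open MvPolynomial Pool.Agent.W574.SM Pool.Agent.W574.LM Pool.Agent.W574.HS Pool.Agent.W574.CN

variable {M : Type} [CommRing M] (L : Mˣ)

variable {ι : Type} [Fintype ι] [DecidableEq ι]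

theorem DenRing_mono {K K' : ℕ → ℕ → Prop} (h : ∀ a n, K a n → K' a n) :
    DenRing L K ≤ DenRing L K' := by
  refine Subring.closure_mono (Set.union_subset_union_right _ ?_)
  rintro u ⟨a, n, ha, hn, hK, hu⟩
  exact ⟨a, n, ha, hn, h a n hK, hu⟩

/-- the denominators which are allowed for a cone: the roots of `b`, and `-3/d` if all Jacobian
determinants vanish -/
def ConePair (f : ι → MvPolynomial (Fin 3) ℂ) (d : ℕ) (b : Polynomial ℂ) (a n : ℕ) : Prop :=
  RootPair b a n ∨ (3 * a = d * n ∧ ∀ e : Fin 3 → ι,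
    (Matrix.of fun s t => pderiv s (f (e t))).det = 0)

theorem proj_mot (f : ι → MvPolynomial (Fin 3) ℂ) (d : ℕ)
    (hf : ∀ j, (f j).IsHomogeneous d) (b : Polynomial ℂ) (hb : IsFunctionalEq f b)
    (Z : PowerSeries M) (hZ : ProjMot L f Z) : Z ∈ DenRing L (ConePair f d b) := by
  obtain ⟨Zc, hZc, rfl⟩ := hZ
  exact Subring.sum_mem _ fun i _ => DenRing_mono L (fun a n h => Or.inl h)
    (plane_mot L _ b (functionalEq_deh i f d hf b hb) _ (hZc i))

theorem pair_d3 (f : ι → MvPolynomial (Fin 3) ℂ) (d : ℕ) (hd : 0 < d)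
    (hf : ∀ j, (f j).IsHomogeneous d) (b : Polynomial ℂ) (hb : IsFunctionalEq f b) :
    ConePair f d b d 3 := by
  by_cases he : ∃ e : Fin 3 → ι, (Matrix.of fun s t => pderiv s (f (e t))).det ≠ 0
  · obtain ⟨e, he⟩ := he
    left
    have h2 := generic_root f d hd hf b hb e he
    have h3 : -(((2 : ℕ) : ℂ) + 1) / d = -((3 : ℕ) : ℂ) / d := by push_cast; ring
    rw [RootPair, ← h3]
    exact h2
  · push Not at he
    exact Or.inr ⟨by ring, he⟩

theorem pair_11 (f : ι → MvPolynomial (Fin 3) ℂ) (d : ℕ) (hf0 : ∃ j, f j ≠ 0) (b : Polynomial ℂ)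
    (hb : Pool.Agent.H628R4.TP.IsBFunction (univ f) b) : ConePair f d b 1 1 := by
  left
  rw [RootPair, Nat.cast_one, div_one]
  exact minus_one_form f hf0 b hb

/-- ideals generated by forms, at the origin -/
theorem cone_mot (f : ι → MvPolynomial (Fin 3) ℂ) (d : ℕ) (hd : 0 < d)
    (hf : ∀ j, (f j).IsHomogeneous d) (b : Polynomial ℂ) (hb : IsFunctionalEq f b)
    (Z : PowerSeries M) (hZ : ConeMot L f d Z) : Z ∈ DenRing L (ConePair f d b) := by
  obtain ⟨Z', hZ', rfl⟩ := hZ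
  exact Subring.mul_mem _ (Subring.mul_mem _ (C_mem _) (proj_mot L f d hf b hb Z' hZ'))
    (mf_mem (by norm_num) fun _ => pair_d3 f d hd hf b hb)

theorem cone_local_form_mot (f : ι → MvPolynomial (Fin 3) ℂ) (d : ℕ) (hd : 0 < d)
    (hf : ∀ j, (f j).IsHomogeneous d) (hf0 : ∃ j, f j ≠ 0) (b : Polynomial ℂ)
    (hb : Pool.Agent.H628R4.TP.IsBFunction (univ f) b)
    (Z : PowerSeries M) (hZ : ConeLocalFormMot L f d Z) : Z ∈ DenRing L (ConePair f d b) := by
  obtain ⟨Z', hZ', rfl⟩ := hZ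
  exact Subring.mul_mem _ (Subring.mul_mem _ (C_mem _)
    (cone_mot L f d hd hf b (functionalEq_of_univ f b hb) Z' hZ'))
    (Subring.mul_mem _ X_mem (geo_mem le_rfl le_rfl (pair_11 f d hf0 b hb)))

theorem cone_jet_mot (f : ι → MvPolynomial (Fin 3) ℂ) (d : ℕ) (hd : 0 < d)
    (hf : ∀ j, (f j).IsHomogeneous d) (hf0 : ∃ j, f j ≠ 0) (b : Polynomial ℂ)
    (hb : Pool.Agent.H628R4.TP.IsBFunction (univ f) b)
    (Z : PowerSeries M) (hZ : ConeJetMot L f d Z) : Z ∈ DenRing L (ConePair f d b) := by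
  obtain ⟨Z', hZ', rfl⟩ := hZ
  have hb' := functionalEq_of_univ f b hb
  exact Subring.mul_mem _ (Subring.mul_mem _ (Subring.mul_mem _ (C_mem _)
    (proj_mot L f d hf b hb' Z' hZ'))
    (geo_mem hd (by norm_num) (pair_d3 f d hd hf b hb')))
    (geo_mem le_rfl le_rfl (pair_11 f d hf0 b hb))

theorem univ_homog (f : ι → MvPolynomial (Fin 3) ℂ) (d : ℕ)
    (hf : ∀ j, (f j).IsHomogeneous d) : (univ f).IsHomogeneous (d + 1) := by
  rw [univ]
  refine IsHomogeneous.sum _ _ _ fun j _ => ?_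
  rw [add_comm]
  exact (isHomogeneous_X ℂ _).mul ((hf j).rename_isHomogeneous)

/-- for forms, local functional equations at the origin suffice -/
theorem bfun_of_local (f : ι → MvPolynomial (Fin 3) ℂ) (d : ℕ)
    (hf : ∀ j, (f j).IsHomogeneous d) (hf0 : ∃ j, f j ≠ 0) (b : Polynomial ℂ)
    (hb : Pool.Agent.H628R4.TP.IsLocalBFunction (univ f) b) :
    Pool.Agent.H628R4.TP.IsBFunction (univ f) b :=
  global_of_local (univ f) (univ_ne_zero f hf0) (d + 1) (univ_homog f d hf) b hb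

end Pool.Agent.W574.MO
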