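import Pool.Agent.W574.MO.Defs

set_option autoImplicit false
set_option linter.unusedSectionVars false
set_option linter.unusedVariables false

/-! # Identities between the local factors -/

namespace Pool.Agent.W574.MO

open PowerSeries

variable {M : Type} [CommRing M] (L : Mˣ)

/-- `L⁻ⁿ Tᵃ` -/
noncomputable def qq (a n : ℕ) : M⟦X⟧ := C ((L⁻¹ ^ n : Mˣ) : M) * X ^ a

theorem qq_mul (a n a' n' : ℕ) : qq L a n * qq L a' n' = qq L (a + a') (n + n') := by
  rw [qq, qq, qq, pow_add, pow_add, Units.val_mul, map_mul]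
  ring

theorem geo_mul {a : ℕ} (ha : 1 ≤ a) (n : ℕ) : (1 - qq L a n) * geo L a n = 1 := by
  rw [geo, qq]
  apply PowerSeries.mul_invOfUnit
  rw [map_sub, map_mul, map_pow, PowerSeries.constantCoeff_X, zero_pow (by omega), mul_zero,
    sub_zero, map_one]
  rfl

theorem mf_pos {a : ℕ} (ha : 1 ≤ a) (n : ℕ) :
    mf L a n = C ((L : M) - 1) * qq L a n * geo L a n := by
  rw [mf, if_neg (by omega), qq, map_mul]
  ring

theorem mf_zero (n : ℕ) : mf L 0 n = 1 := by
  rw [mf, if_pos rfl]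

variable {L} {K : ℕ → ℕ → Prop}

theorem C_mem (m : M) : (C m : M⟦X⟧) ∈ DenRing L K :=
  Subring.subset_closure (Or.inl ⟨Polynomial.C m, by simp⟩)

theorem X_mem : (X : M⟦X⟧) ∈ DenRing L K :=
  Subring.subset_closure (Or.inl ⟨Polynomial.X, by simp⟩)

theorem qq_mem (a n : ℕ) : qq L a n ∈ DenRing L K :=
  (DenRing L K).mul_mem (C_mem _) ((DenRing L K).pow_mem X_mem _)

theorem geo_mem {a n : ℕ} (ha : 1 ≤ a) (hn : 1 ≤ n) (hK : K a n) : geo L a n ∈ DenRing L K :=
  Subring.subset_closure (Or.inr ⟨a, n, ha, hn, hK, by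
    have := geo_mul L ha n
    rw [mul_comm]
    exact this⟩)

theorem mf_mem {a n : ℕ} (hn : 1 ≤ n) (hK : 1 ≤ a → K a n) : mf L a n ∈ DenRing L K := by
  rcases Nat.eq_zero_or_pos a with h | h
  · rw [h, mf_zero]
    exact (DenRing L K).one_mem
  · rw [mf_pos L h]
    exact (DenRing L K).mul_mem ((DenRing L K).mul_mem (C_mem _) (qq_mem _ _))
      (geo_mem h hn (hK h))

theorem key1 (c x y gx gy gq : M⟦X⟧) (hx : (1 - x) * gx = 1) (hy : (1 - y) * gy = 1)
    (hq : (1 - x * y) * gq = 1) :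
    (c * x * gx + c * y * gy + c) * (c * (x * y) * gq) = c ^ 2 * (x * y) * gx * gy := by
  have h1 : x * gx + y * gy + 1 = gx * gy * (1 - x * y) := by
    linear_combination (-gy) * hx - (x * gx + 1) * hy
  calc (c * x * gx + c * y * gy + c) * (c * (x * y) * gq)
      = c ^ 2 * (x * y) * gq * (x * gx + y * gy + 1) := by ring
    _ = c ^ 2 * (x * y) * gq * (gx * gy * (1 - x * y)) := by rw [h1]
    _ = c ^ 2 * (x * y) * gx * gy * ((1 - x * y) * gq) := by ring
    _ = c ^ 2 * (x * y) * gx * gy := by rw [hq, mul_one]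

theorem key2 (l x gy gq : M⟦X⟧) (hy : (1 - l * x) * gy = 1) (hq : (1 - x) * gq = 1) :
    (1 + (l - 1) * (l * x) * gy + (l - 1)) * ((l - 1) * x * gq) = l * (l - 1) * x * gy := by
  have h1 : l + (l - 1) * (l * x) * gy = l * gy * (1 - x) := by
    linear_combination (-l) * hy
  calc (1 + (l - 1) * (l * x) * gy + (l - 1)) * ((l - 1) * x * gq)
      = (l + (l - 1) * (l * x) * gy) * ((l - 1) * x * gq) := by ring
    _ = l * gy * (1 - x) * ((l - 1) * x * gq) := by rw [h1]
    _ = l * (l - 1) * x * gy * ((1 - x) * gq) := by ring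
    _ = l * (l - 1) * x * gy := by rw [hq, mul_one]

theorem key3 (c x y gx gy gq : M⟦X⟧) (hx : (1 - x) * gx = 1) (hy : (1 - y) * gy = 1)
    (hq : (1 - x * y) * gq = 1) :
    (c * (x * y) * gq - c * y * gy) * (c * x * gx) = - (c * (x * y) * gq) * (c * gy) := by
  have h1 : (x * gq - gy) * gx = - (gq * gy) := by
    linear_combination (-(x * gq * gx)) * hy + (gy * gx) * hq - (gq * gy) * hx
  linear_combination (c ^ 2 * x * y) * h1

/-- the sum of the contributions of the strata of a critical curve has no pole there -/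
theorem beta_mem {a n u1 k1 u2 k2 : ℕ} (hu : u1 + u2 = a) (hk : k1 + k2 = n) (ha : 1 ≤ a)
    (hk1 : 1 ≤ k1) (hk2 : 1 ≤ k2) (hz1 : u1 = 0 → k1 = 1) (hz2 : u2 = 0 → k2 = 1)
    (hK1 : 1 ≤ u1 → K u1 k1) (hK2 : 1 ≤ u2 → K u2 k2) :
    (mf L u1 k1 + mf L u2 k2 + C ((L : M) - 1)) * mf L a n ∈ DenRing L K := by
  subst hu hk
  rcases Nat.eq_zero_or_pos u1 with h1 | h1
  · have h2 : 1 ≤ u2 := by omega
    have hk := hz1 h1
    subst h1 hk
    have hq : qq L u2 k2 = C (L : M) * qq L (0 + u2) (1 + k2) := by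
      rw [qq, qq, zero_add, ← mul_assoc, ← map_mul, ← Units.val_mul, pow_add, pow_one,
        mul_inv_cancel_left]
    have hy := geo_mul L h2 k2
    rw [hq] at hy
    have hx := geo_mul L (show 1 ≤ 0 + u2 by omega) (1 + k2)
    have := key2 (C (L : M)) _ _ _ hy hx
    rw [mf_zero, mf_pos L h2, mf_pos L (show 1 ≤ 0 + u2 by omega), hq, map_sub, map_one, this]
    exact (DenRing L K).mul_mem ((DenRing L K).mul_mem ((DenRing L K).mul_mem (C_mem _)
      ((DenRing L K).sub_mem (C_mem _) (DenRing L K).one_mem)) (qq_mem _ _))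
      (geo_mem h2 hk2 (hK2 h2))
  · rcases Nat.eq_zero_or_pos u2 with h2 | h2
    · have hk := hz2 h2
      subst h2 hk
      have hq : qq L u1 k1 = C (L : M) * qq L (u1 + 0) (k1 + 1) := by
        rw [qq, qq, add_zero, ← mul_assoc, ← map_mul, ← Units.val_mul, pow_succ',
          mul_inv_cancel_left]
      have hy := geo_mul L h1 k1
      rw [hq] at hy
      have hx := geo_mul L (show 1 ≤ u1 + 0 by omega) (k1 + 1)
      have := key2 (C (L : M)) _ _ _ hy hx
      rw [mf_zero, mf_pos L h1, mf_pos L (show 1 ≤ u1 + 0 by omega), hq, map_sub, map_one,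
        add_comm (_ * _) 1, this]
      exact (DenRing L K).mul_mem ((DenRing L K).mul_mem ((DenRing L K).mul_mem (C_mem _)
        ((DenRing L K).sub_mem (C_mem _) (DenRing L K).one_mem)) (qq_mem _ _))
        (geo_mem h1 hk1 (hK1 h1))
    · have hx := geo_mul L h1 k1
      have hy := geo_mul L h2 k2
      have hq := geo_mul L (show 1 ≤ u1 + u2 by omega) (k1 + k2)
      rw [← qq_mul] at hq
      have := key1 (C ((L : M) - 1)) _ _ _ _ _ hx hy hq
      rw [mf_pos L h1, mf_pos L h2, mf_pos L (show 1 ≤ u1 + u2 by omega), ← qq_mul, this]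
      exact (DenRing L K).mul_mem ((DenRing L K).mul_mem ((DenRing L K).mul_mem
        ((DenRing L K).pow_mem (C_mem _) _)
        ((DenRing L K).mul_mem (qq_mem _ _) (qq_mem _ _))) (geo_mem h1 hk1 (hK1 h1)))
        (geo_mem h2 hk2 (hK2 h2))

/-- changing the second curve by a multiple of the first one -/
theorem pass_mem {a n u k : ℕ} (ha : 1 ≤ a) (hu : 1 ≤ u) (hn : 1 ≤ n) (hk : 1 ≤ k)
    (hK1 : K u k) (hK2 : K (a + u) (n + k)) :
    (mf L (a + u) (n + k) - mf L u k) * mf L a n ∈ DenRing L K := by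
  have hx := geo_mul L ha n
  have hy := geo_mul L hu k
  have hq := geo_mul L (show 1 ≤ a + u by omega) (n + k)
  have h4 : (qq L (a + u) (n + k) : M⟦X⟧) = qq L a n * qq L u k := (qq_mul L a n u k).symm
  have hm := mf_mem (L := L) (K := K) (a := a + u) (n := n + k) (by omega) (fun _ => hK2)
  rw [mf_pos L (show 1 ≤ a + u by omega), h4] at hm ⊢
  rw [h4] at hq
  have := key3 (C ((L : M) - 1)) _ _ _ _ _ hx hy hq
  rw [mf_pos L ha, mf_pos L hu, this]
  exact (DenRing L K).mul_mem ((DenRing L K).neg_mem hm)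
    ((DenRing L K).mul_mem (C_mem _) (geo_mem hu hk hK1))

end Pool.Agent.W574.MO
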