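import Mathlib
import Pool.Agent.W574.SM.ZetaDefs

set_option autoImplicit false

/-! # The motivic zeta function of an ideal of `ℂ[x, y]`

`M` is a commutative ring with a unit `L`. The main example is `M = K₀(Var_ℂ)[1/L]`, the
Grothendieck ring of complex varieties, localized at the class `L` of the affine line. The
variable `X` of the ring `M⟦X⟧` of formal power series is denoted by `T` in the comments. -/

namespace Pool.Agent.W574.MO

open MvPolynomial Pool.Agent.W574.SM

variable {M : Type} [CommRing M]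

/-- The series `1 / (1 - L⁻ⁿ Tᵃ)` (for `a ≥ 1`). -/
noncomputable def geo (L : Mˣ) (a n : ℕ) : PowerSeries M :=
  PowerSeries.invOfUnit
    (1 - PowerSeries.C ((L⁻¹ ^ n : Mˣ) : M) * PowerSeries.X ^ a) 1

/-- The series `(L - 1) L⁻ⁿ Tᵃ / (1 - L⁻ⁿ Tᵃ)` of a divisor with the numerical data
`(N, ν) = (a, n)`, `a ≥ 1`. If there is no divisor, the numerical data are `(0, 1)`, and the
series is replaced by `1`. -/
noncomputable def mf (L : Mˣ) (a n : ℕ) : PowerSeries M :=
  if a = 0 then 1 else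
    PowerSeries.C (((L : M) - 1) * ((L⁻¹ ^ n : Mˣ) : M)) * PowerSeries.X ^ a * geo L a n

/-- `MotLocal L g a₀ n₀ a₁ n₁ Z`: the origin of the plane, with the coordinates `u = X 0` and
`v = X 1`, is a point of a partial resolution, near which the ideal is `u ^ a₀ v ^ a₁ (g_j)` and
the canonical divisor is `(n₀ - 1) [u = 0] + (n₁ - 1) [v = 0]`. (So `(a_i, n_i)` are the numbers
`(N_E, ν_E)` of the exceptional curve `u = 0` resp. `v = 0`, and `(a_i, n_i) = (0, 1)` if there is
no exceptional curve.) `Z` is the contribution of the origin to the motivic zeta function: the sum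
`∑_I [E_I° ∩ h⁻¹(0)] ∏_{i ∈ I} (L - 1) L^(-ν_i) T^(N_i) / (1 - L^(-ν_i) T^(N_i))`, where `h` is
a resolution obtained by blowing up points. The rules are

* `unit`: some `g_j` does not vanish at the origin;
* `curveV`, `curveU`: near the origin, the ideal `(g_j)` is `(h ^ m)`, where the curve `h = 0` is
  smooth at the origin and transversal to the exceptional curve `u = 0` (resp. `v = 0`), the only
  one through the origin (if any);
* `blowup`: the origin is blown up. The number `m` is the multiplicity of the ideal `(g_j)`, the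
  new exceptional curve `E` has `N_E = a₀ + a₁ + m` and `ν_E = n₀ + n₁`, and `gc c` and `gI`
  are the transforms of the ideal at the points of `E` (the directions `v = c u` and `u = 0`).
  At the points `c ∉ S` the transform of the ideal is trivial and there is no other exceptional
  curve; the set of these points has the class `(L + 1) - 1 - |S| = L - |S|`, because `E` is a
  projective line. -/
inductive MotLocal {ι : Type} (L : Mˣ) :
    (ι → MvPolynomial (Fin 2) ℂ) → ℕ → ℕ → ℕ → ℕ → PowerSeries M → Prop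
  | unit (g : ι → MvPolynomial (Fin 2) ℂ) (a₀ n₀ a₁ n₁ : ℕ) (j : ι)
      (hj : constantCoeff (g j) ≠ 0) :
      MotLocal L g a₀ n₀ a₁ n₁ (mf L a₀ n₀ * mf L a₁ n₁)
  | curveV (g : ι → MvPolynomial (Fin 2) ℂ) (a₀ n₀ m : ℕ) (hm : 1 ≤ m)
      (h : MvPolynomial (Fin 2) ℂ) (k : ι → MvPolynomial (Fin 2) ℂ)
      (hg : ∀ j, g j = h ^ m * k j) (h0 : constantCoeff h = 0)
      (h1 : constantCoeff (pderiv 1 h) ≠ 0) (j : ι) (hj : constantCoeff (k j) ≠ 0) :
      MotLocal L g a₀ n₀ 0 1 (mf L a₀ n₀ * mf L m 1)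
  | curveU (g : ι → MvPolynomial (Fin 2) ℂ) (a₁ n₁ m : ℕ) (hm : 1 ≤ m)
      (h : MvPolynomial (Fin 2) ℂ) (k : ι → MvPolynomial (Fin 2) ℂ)
      (hg : ∀ j, g j = h ^ m * k j) (h0 : constantCoeff h = 0)
      (h1 : constantCoeff (pderiv 0 h) ≠ 0) (j : ι) (hj : constantCoeff (k j) ≠ 0) :
      MotLocal L g 0 1 a₁ n₁ (mf L a₁ n₁ * mf L m 1)
  | blowup (g : ι → MvPolynomial (Fin 2) ℂ) (a₀ n₀ a₁ n₁ m : ℕ) (hm : 1 ≤ m)
      (gc : ℂ → ι → MvPolynomial (Fin 2) ℂ) (gI : ι → MvPolynomial (Fin 2) ℂ)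
      (hgc : ∀ c j, aeval (chart c) (g j) = X 0 ^ m * gc c j)
      (hgI : ∀ j, aeval chartI (g j) = X 1 ^ m * gI j)
      (S : Finset ℂ) (h0S : 0 ∈ S) (hS : ∀ c ∉ S, ∃ j, constantCoeff (gc c j) ≠ 0)
      (Zc : ℂ → PowerSeries M) (ZI : PowerSeries M)
      (h0 : MotLocal L (gc 0) (a₀ + a₁ + m) (n₀ + n₁) a₁ n₁ (Zc 0))
      (hc : ∀ c ∈ S, c ≠ 0 → MotLocal L (gc c) (a₀ + a₁ + m) (n₀ + n₁) 0 1 (Zc c))
      (hI : MotLocal L gI a₀ n₀ (a₀ + a₁ + m) (n₀ + n₁) ZI) :
      MotLocal L g a₀ n₀ a₁ n₁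
        (ZI + ∑ c ∈ S, Zc c +
          PowerSeries.C ((L : M) - (S.card : M)) * mf L (a₀ + a₁ + m) (n₀ + n₁))

/-- `Z` is a sum of the form
`u₀ + ∑_i w_i (L - 1) L⁻¹ T^(m_i) / (1 - L⁻¹ T^(m_i)) + ∑_{P ∈ S} Z_P`, where `u₀`, `w_i` are
elements of `M`, the `m_i` are the multiplicities of curves in the zero locus of the ideal, and
`Z_P` is the contribution of the point `P`, computed by a sequence of blow-ups of points.

The motivic zeta function `∫ T^(ord I) dμ` of the ideal is `L⁻²` times such a sum: take for the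
curves `C_i` all the irreducible curves in the zero locus `Y` of the ideal, for `S` a finite set
of points of `Y` which contains the isolated points of `Y` and the singular points of the union
of the curves and the points at which the ideal is not a power of the ideal of this union,
`u₀ = [ℂ ^ 2 ∖ Y]` and `w_i = [C_i ∖ S]`. -/
def PlaneMot {ι : Type} (L : Mˣ) (f : ι → MvPolynomial (Fin 2) ℂ) (Z : PowerSeries M) : Prop :=
  ∃ (u₀ : M) (r : ℕ) (h : Fin r → MvPolynomial (Fin 2) ℂ) (m : Fin r → ℕ) (w : Fin r → M)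
    (S : Finset (Fin 2 → ℂ)) (ZP : (Fin 2 → ℂ) → PowerSeries M),
    (∀ i, IsCurve f (h i) (m i)) ∧
    (∀ P ∈ S, MotLocal L (fun j => translate P (f j)) 0 1 0 1 (ZP P)) ∧
    Z = PowerSeries.C u₀ + ∑ i, PowerSeries.C (w i) * mf L (m i) 1 + ∑ P ∈ S, ZP P

/-- The subring `M[T][(1 - L⁻ⁿ Tᵃ)⁻¹ : a, n ≥ 1, K a n]` of `M⟦T⟧`. -/
noncomputable def DenRing (L : Mˣ) (K : ℕ → ℕ → Prop) : Subring (PowerSeries M) :=
  Subring.closure (Set.range (fun p : Polynomial M => (p : PowerSeries M)) ∪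
    {u | ∃ a n : ℕ, 1 ≤ a ∧ 1 ≤ n ∧ K a n ∧
      u * (1 - PowerSeries.C ((L⁻¹ ^ n : Mˣ) : M) * PowerSeries.X ^ a) = 1})

end Pool.Agent.W574.MO
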