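import Pool.Agent.W574.MO.Defs
import Pool.Agent.W574.CN.Defs

set_option autoImplicit false

/-! # The motivic zeta functions of `∑ y_j f_j(x)` and of cones

`M` is a commutative ring with a unit `L`, see `MO/Defs.lean`; the main example is
`M = K₀(Var_ℂ)[1/L]`. For a polynomial `F` in `N` variables, `∫ T^(ord F) dμ` is the sum over `l`
of the motivic volumes of the sets of arcs `φ` with `ord F(φ) = l`, times `T^l`; the volume is
normalized such that the set of all arcs of `ℂ^N` has the volume `1`. By the change of variables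
formula of Denef and Loeser it is
`L^(-N) ∑_I [E_I°] ∏_{i ∈ I} (L - 1) L^(-ν_i) T^(N_i) / (1 - L^(-ν_i) T^(N_i))`.

If `F = ∑_j y_j f_j(x)` and `φ = (x(t), y(t))` is an arc with `e = min_j ord f_j(x(t)) < ∞`, then
`F(φ) = t^e ℓ(y(t))` with a linear form `ℓ = ∑_j (t^(-e) f_j(x(t))) y_j`, one of whose coefficients
is a unit. Hence, for fixed `x(t)`, the integral over the arcs `y(t)` is
`T^e (1 - L⁻¹) / (1 - L⁻¹ T)`, and it is `T^e L⁻ʳ (1 - L⁻¹) T / (1 - L⁻¹ T)`, if `y(0) = 0` is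
required (`r` is the number of the `y_j`). If one requires in addition that the first non-zero
coefficient of `F(φ)` is `1`, then one has to replace `1 - L⁻¹` by `L⁻¹`. -/

namespace Pool.Agent.W574.MO

open MvPolynomial Pool.Agent.W574.SM Pool.Agent.W574.CN

variable {M : Type} [CommRing M]

/-- `Z` is (of the form of) the motivic zeta function `∫ T^(ord F) dμ` of the polynomial
`F = ∑ y_j f_j(x₁, x₂)`: `Z = (L⁻² Z') (1 - L⁻¹) / (1 - L⁻¹ T)`, where `L⁻² Z'` is the motivic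
zeta function `∫ T^(ord I) dμ` of the ideal `I = (f_j)` of `ℂ[x₁, x₂]`, see `PlaneMot`. -/
def FormMot {ι : Type} (L : Mˣ) (f : ι → MvPolynomial (Fin 2) ℂ) (Z : PowerSeries M) : Prop :=
  ∃ Z' : PowerSeries M, PlaneMot L f Z' ∧
    Z = PowerSeries.C (((L⁻¹ ^ 2 : Mˣ) : M) * (1 - ((L⁻¹ : Mˣ) : M))) * Z' * geo L 1 1

/-- `Z` is the local motivic zeta function `∫_{φ(0) = 0} T^(ord F) dμ` at the origin of the
polynomial `F = ∑ y_j f_j(x₁, x₂)` with `r = |ι|` variables `y_j`:
`Z = (L⁻² Z') L⁻ʳ (1 - L⁻¹) T / (1 - L⁻¹ T)`, where `L⁻² Z'` is the local motivic zeta function of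
the ideal `I = (f_j)` at the origin, see `MotLocal`. -/
def LocalFormMot {ι : Type} [Fintype ι] (L : Mˣ) (f : ι → MvPolynomial (Fin 2) ℂ)
    (Z : PowerSeries M) : Prop :=
  ∃ Z' : PowerSeries M, MotLocal L f 0 1 0 1 Z' ∧
    Z = PowerSeries.C (((L⁻¹ ^ (2 + Fintype.card ι) : Mˣ) : M) * (1 - ((L⁻¹ : Mˣ) : M))) * Z' *
      (PowerSeries.X * geo L 1 1)

/-- `Z` is the series `∑_{m ≥ 1} [X_{m,1,x}] L^(-m N) T^m` of the polynomial
`F = ∑ y_j f_j(x₁, x₂)` in `N = 2 + |ι|` variables at the point `x = (P, 0)`, where `X_{m,1,x}` is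
the set of the `m`-jets `φ` with `φ(0) = x` and `F(φ) = t^m` modulo `t^(m + 1)`:
`Z = Z' L⁻¹ T / (1 - L⁻¹ T)`, where `L⁻² Z'` is the local motivic zeta function of the ideal
`I = (f_j)` at `P`, see `MotLocal`. -/
def JetFormMot {ι : Type} (L : Mˣ) (f : ι → MvPolynomial (Fin 2) ℂ) (P : Fin 2 → ℂ)
    (Z : PowerSeries M) : Prop :=
  ∃ Z' : PowerSeries M, MotLocal L (fun j => translate P (f j)) 0 1 0 1 Z' ∧
    Z = PowerSeries.C ((L⁻¹ : Mˣ) : M) * Z' * (PowerSeries.X * geo L 1 1)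

/-- `Z` is a sum of three series of the form `PlaneMot`, for the three ideals
`(f_j |_{x_i = 1})` of `ℂ[u, v]`.

If the `f_j` are forms of the same degree in `x₀, x₁, x₂`, then they define an ideal sheaf `J` on
the projective plane `P²`, and the sum over the strata of `P²` of a log resolution of `J`,
`Z_J = ∑_I [E_I°] ∏_{i ∈ I} (L - 1) L^(-ν_i) T^(N_i) / (1 - L^(-ν_i) T^(N_i))`, is of this form: it
is the sum of the contributions of the points with `x₀ ≠ 0`, of the points with `x₀ = 0`,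
`x₁ ≠ 0`, and of the point `x₀ = x₁ = 0`. -/
def ProjMot {ι : Type} (L : Mˣ) (f : ι → MvPolynomial (Fin 3) ℂ) (Z : PowerSeries M) : Prop :=
  ∃ Zc : Fin 3 → PowerSeries M, (∀ i, PlaneMot L (fun j => deh i (f j)) (Zc i)) ∧
    Z = ∑ i, Zc i

/-- `Z` is (of the form of) the local motivic zeta function at the origin of the ideal
`I = (f_j)` of `ℂ[x₀, x₁, x₂]` which is generated by forms `f_j` of degree `d`:
`Z = L⁻³ Z_J (L - 1) L⁻³ T^d / (1 - L⁻³ T^d)`, see `ProjMot` for `Z_J`.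

The blow-up of the origin of `ℂ ^ 3` is the total space `X'` of the line bundle `O(-1)` over the
projective plane `P²`, and on `X'` the ideal `I` is `O(-d E)`, `E = P²` the exceptional divisor,
times the pull-back of `J`. If `Y → P²` is a log resolution of `J` by blow-ups of points, then
`X' ×_{P²} Y` is a log resolution of `I`, and the strata over the origin are the strata of `Y`, the
transform of `E` being an additional component, which has the numerical data `(d, 3)`. -/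
def ConeMot {ι : Type} (L : Mˣ) (f : ι → MvPolynomial (Fin 3) ℂ) (d : ℕ) (Z : PowerSeries M) :
    Prop :=
  ∃ Z' : PowerSeries M, ProjMot L f Z' ∧
    Z = PowerSeries.C ((L⁻¹ ^ 3 : Mˣ) : M) * Z' * mf L d 3

/-- `Z` is (of the form of) the local motivic zeta function `∫_{φ(0) = 0} T^(ord F) dμ` at the
origin of the polynomial `F = ∑ y_j f_j(x₀, x₁, x₂)` with `r = |ι|` variables `y_j`, where the
`f_j` are forms of degree `d`: `Z = Z_{I,0} L⁻ʳ (1 - L⁻¹) T / (1 - L⁻¹ T)`, where `Z_{I,0}` is the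
local motivic zeta function of the ideal `I = (f_j)` at the origin, see `ConeMot`. -/
def ConeLocalFormMot {ι : Type} [Fintype ι] (L : Mˣ) (f : ι → MvPolynomial (Fin 3) ℂ) (d : ℕ)
    (Z : PowerSeries M) : Prop :=
  ∃ Z' : PowerSeries M, ConeMot L f d Z' ∧
    Z = PowerSeries.C (((L⁻¹ ^ (Fintype.card ι) : Mˣ) : M) * (1 - ((L⁻¹ : Mˣ) : M))) * Z' *
      (PowerSeries.X * geo L 1 1)

/-- `Z` is (of the form of) the series `∑_{m ≥ 0} [X_{m,1}] L^(-m N) T^m` of the polynomial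
`F = ∑ y_j f_j(x₀, x₁, x₂)` in `N = 3 + r` variables, `r = |ι|`, where the `f_j` are forms of
degree `d`, and `X_{m,1}` is the set of the `m`-jets `φ` with `F(φ) = t^m` modulo `t^(m + 1)`:
`Z = L^(3 + r) Z_I L⁻¹ / (1 - L⁻¹ T)`, where `Z_I = ∫ T^(ord I) dμ` is the motivic zeta function
of the ideal `I = (f_j)` of `ℂ[x₀, x₁, x₂]`, and `Z_I = L⁻³ (L - 1) Z_J / (1 - L⁻³ T^d)`, see
`ProjMot` for `Z_J`.

The last formula: an arc of `ℂ ^ 3` is `t^k x(t)` with `k ≥ 0` and `x(0) ≠ 0`, so that `Z_I` is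
`∑_k (L⁻³ T^d)^k` times the integral over the arcs with `x(0) ≠ 0`, which is `L⁻³ (L - 1) Z_J`,
because `ℂ ^ 3 ∖ 0` is, over the sets `x_i ≠ 0`, the product of the projective plane with
`ℂ ∖ 0`. -/
def ConeJetMot {ι : Type} [Fintype ι] (L : Mˣ) (f : ι → MvPolynomial (Fin 3) ℂ) (d : ℕ)
    (Z : PowerSeries M) : Prop :=
  ∃ Z' : PowerSeries M, ProjMot L f Z' ∧
    Z = PowerSeries.C (((L ^ (3 + Fintype.card ι) : Mˣ) : M) * ((L⁻¹ ^ 3 : Mˣ) : M) *
      ((L : M) - 1) * ((L⁻¹ : Mˣ) : M)) * Z' * geo L d 3 * geo L 1 1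

/-- The condition on the pair `(a, n)` that `-n/a` is a root of the polynomial `b`. -/
def RootPair (b : Polynomial ℂ) (a n : ℕ) : Prop := b.eval (-(n : ℂ) / a) = 0

end Pool.Agent.W574.MO
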