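import Pool.Agent.W574.MO.Blow

set_option autoImplicit false
set_option linter.unusedSectionVars false
set_option linter.unusedVariables false

/-! # The poles of the motivic contribution of a point -/

namespace Pool.Agent.W574.MO

open Pool.Agent.W574.SM Pool.Agent.W574.LM

open Polynomial

variable {ι : Type} [Fintype ι] [DecidableEq ι]

/-- the denominators which do not vanish at `s0` -/
def Kn (s0 : ℂ) (a n : ℕ) : Prop := (n : ℂ) + a * s0 ≠ 0

/-- the conclusion at a node -/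
def GoodM {M : Type} [CommRing M] (L : Mˣ) (s0 : ℂ) (g : ι → MP) (a0 n0 a1 n1 : ℕ)
    (Z : PowerSeries M) : Prop :=
  ∃ c0 ∈ DenRing L (Kn s0), ∃ c1 ∈ DenRing L (Kn s0),
    ((n0 : ℂ) + a0 * s0 = 0 → ∀ μ, Ord0 g μ → c0 = mf L (a1 + μ) n1) ∧
    ((n1 : ℂ) + a1 * s0 = 0 → ∀ μ, Ord1 g μ → c1 = mf L (a0 + μ) n0) ∧
    Z - c0 * mf L a0 n0 - c1 * mf L a1 n1 ∈ DenRing L (Kn s0)

section Leaves

variable {M : Type} [CommRing M] (L : Mˣ)

theorem mfK {s0 : ℂ} {a n : ℕ} (hn : 1 ≤ n) (h : (n : ℂ) + a * s0 ≠ 0) :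
    mf L a n ∈ DenRing L (Kn s0) := mf_mem hn fun _ => h

theorem goodM_leaf (s0 : ℂ) (g : ι → MP) (a0 n0 a1 n1 a n : ℕ) (hn : 1 ≤ n)
    (hA0 : (n0 : ℂ) + a0 * s0 = 0) (hA1 : (n1 : ℂ) + a1 * s0 ≠ 0)
    (hA : (n : ℂ) + a * s0 ≠ 0) (μ : ℕ) (hμ : Ord0 g μ) (h1 : a1 + μ = a) (h2 : n1 = n) :
    GoodM L s0 g a0 n0 a1 n1 (mf L a0 n0 * mf L a n) := by
  refine ⟨mf L a n, mfK L hn hA, 0, (DenRing L (Kn s0)).zero_mem, ?_, fun h => absurd h hA1, ?_⟩
  · intro _ ν hν
    rw [← hμ.unique hν, h1, h2]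
  · rw [zero_mul, sub_zero, mul_comm, sub_self]
    exact (DenRing L (Kn s0)).zero_mem

theorem goodM_leaf' (s0 : ℂ) (g : ι → MP) (a0 n0 a1 n1 a n : ℕ) (hn : 1 ≤ n)
    (hA1 : (n1 : ℂ) + a1 * s0 = 0) (hA0 : (n0 : ℂ) + a0 * s0 ≠ 0)
    (hA : (n : ℂ) + a * s0 ≠ 0) (μ : ℕ) (hμ : Ord1 g μ) (h1 : a0 + μ = a) (h2 : n0 = n) :
    GoodM L s0 g a0 n0 a1 n1 (mf L a1 n1 * mf L a n) := by
  refine ⟨0, (DenRing L (Kn s0)).zero_mem, mf L a n, mfK L hn hA, fun h => absurd h hA0, ?_, ?_⟩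
  · intro _ ν hν
    rw [← hμ.unique hν, h1, h2]
  · rw [zero_mul, sub_zero, mul_comm, sub_self]
    exact (DenRing L (Kn s0)).zero_mem

theorem goodM_reg (s0 : ℂ) (g : ι → MP) (a0 n0 a1 n1 : ℕ) (Z : PowerSeries M)
    (hA0 : (n0 : ℂ) + a0 * s0 ≠ 0) (hA1 : (n1 : ℂ) + a1 * s0 ≠ 0) (hZ : Z ∈ DenRing L (Kn s0)) :
    GoodM L s0 g a0 n0 a1 n1 Z := by
  refine ⟨0, (DenRing L (Kn s0)).zero_mem, 0, (DenRing L (Kn s0)).zero_mem,
    fun h => absurd h hA0, fun h => absurd h hA1, ?_⟩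
  rw [zero_mul, zero_mul, sub_zero, sub_zero]
  exact hZ

end Leaves

/-- **The poles of the motivic contribution of a point.** -/
theorem local_mainM {M : Type} [CommRing M] (L : Mˣ) (f : ι → MP) (b : ℂ[X]) (H : MP)
    (hb : IsLocEq H f b) (s0 : ℂ)
    (hs0 : b.eval s0 ≠ 0) {g : ι → MP} {a0 n0 a1 n1 : ℕ} {Z : PowerSeries M}
    (hZ : MotLocal L g a0 n0 a1 n1 Z) :
    InvL H f s0 g a0 n0 a1 n1 → GoodM L s0 g a0 n0 a1 n1 Z := by
  classical
  induction hZ with
  | unit g a0 n0 a1 n1 j hj =>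
    intro inv
    have ho0 : Ord0 g 0 := ⟨fun i k hk => absurd hk (Nat.not_lt_zero k),
      ⟨j, by rw [coeff_res0]; exact hj⟩⟩
    have ho1 : Ord1 g 0 := ⟨fun i k hk => absurd hk (Nat.not_lt_zero k),
      ⟨j, by rw [coeff_res1]; exact hj⟩⟩
    by_cases hA0 : (n0 : ℂ) + a0 * s0 = 0
    · have hA1 : (n1 : ℂ) + a1 * s0 ≠ 0 := by
        have := inv.hH0 hA0 0 ho0
        rw [add_zero] at this
        intro h
        apply this
        rw [← h]
        ring
      exact goodM_leaf L s0 g a0 n0 a1 n1 a1 n1 inv.hn1 hA0 hA1 hA1 0 ho0 rfl rfl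
    · by_cases hA1 : (n1 : ℂ) + a1 * s0 = 0
      · rw [mul_comm]
        exact goodM_leaf' L s0 g a0 n0 a1 n1 a0 n0 inv.hn0 hA1 hA0 hA0 0 ho1 rfl rfl
      · exact goodM_reg L s0 g a0 n0 a1 n1 _ hA0 hA1
          ((DenRing L (Kn s0)).mul_mem (mfK L inv.hn0 hA0) (mfK L inv.hn1 hA1))
  | curveV g a0 n0 m hm h k hg h0 h1 j hj =>
    intro inv
    have hA1 : ((1 : ℕ) : ℂ) + ((0 : ℕ) : ℂ) * s0 ≠ 0 := by simp
    have hm1 : ((1 : ℕ) : ℂ) + (m : ℂ) * s0 ≠ 0 := by
      intro h2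
      apply hs0
      have hmc : (m : ℂ) ≠ 0 := Nat.cast_ne_zero.2 (by omega)
      have h3 : s0 = -1 / (m : ℂ) := by
        rw [eq_div_iff hmc]
        push_cast at h2
        linear_combination h2
      rw [h3]
      obtain ⟨ξ, W, W', hW, hW', hf, hJ, hHc⟩ := inv.geom
      refine node_curveVL f b H hb ξ hHc W W' hW hW' a0 n0 m (by omega) h k ?_ ?_ h0 h1 j hj
      · intro i
        rw [hf, hg, pow_zero, mul_one]
      · rw [hJ, Nat.sub_self, pow_zero, mul_one]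
    have ho := ord0_curve g m h k hg h0 h1 j hj
    by_cases hA0 : (n0 : ℂ) + a0 * s0 = 0
    · exact goodM_leaf L s0 g a0 n0 0 1 m 1 le_rfl hA0 hA1 hm1 m ho (zero_add m) rfl
    · exact goodM_reg L s0 g a0 n0 0 1 _ hA0 hA1
        ((DenRing L (Kn s0)).mul_mem (mfK L inv.hn0 hA0) (mfK L le_rfl hm1))
  | curveU g a1 n1 m hm h k hg h0 h1 j hj =>
    intro inv
    have hA0 : ((1 : ℕ) : ℂ) + ((0 : ℕ) : ℂ) * s0 ≠ 0 := by simp
    have hm1 : ((1 : ℕ) : ℂ) + (m : ℂ) * s0 ≠ 0 := by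
      intro h2
      apply hs0
      have hmc : (m : ℂ) ≠ 0 := Nat.cast_ne_zero.2 (by omega)
      have h3 : s0 = -1 / (m : ℂ) := by
        rw [eq_div_iff hmc]
        push_cast at h2
        linear_combination h2
      rw [h3]
      obtain ⟨ξ, W, W', hW, hW', hf, hJ, hHc⟩ := inv.geom
      refine node_curveUL f b H hb ξ hHc W W' hW hW' a1 n1 m (by omega) h k ?_ ?_ h0 h1 j hj
      · intro i
        rw [hf, hg, pow_zero, one_mul]
      · rw [hJ, Nat.sub_self, pow_zero, one_mul]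
    have ho := ord1_curve g m h k hg h0 h1 j hj
    by_cases hA1 : (n1 : ℂ) + a1 * s0 = 0
    · exact goodM_leaf' L s0 g 0 1 a1 n1 m 1 le_rfl hA1 hA0 hm1 m ho (zero_add m) rfl
    · exact goodM_reg L s0 g 0 1 a1 n1 _ hA0 hA1
        ((DenRing L (Kn s0)).mul_mem (mfK L inv.hn1 hA1) (mfK L le_rfl hm1))
  | blowup g a0 n0 a1 n1 m hm gc gI hgc hgI S h0S hS Zc ZI h0 hc hI ih0 ihc ihI =>
    intro inv
    have hn0 := inv.hn0
    have hn1 := inv.hn1
    have hmult : IsMult g m := ⟨⟨gc 0, hgc 0⟩, ⟨gI, hgI⟩⟩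
    have hJ1 := inv.hJ1 m hmult
    -- a generator with nonzero leading form
    obtain ⟨c1, hc1⟩ := Infinite.exists_notMem_finset S
    obtain ⟨j0, hj0⟩ := hS c1 hc1
    have hresc : ∀ c j, res0 (gc c j) = (res0 (gc 0 j)).comp (X + C c) := fun c j =>
      res0_chart (g j) (gc 0 j) (gc c j) m c (hgc 0 j) (hgc c j)
    have hP0 : res0 (gc 0 j0) ≠ 0 := by
      intro h
      apply hj0
      rw [← coeff_res0, hresc, h, zero_comp, coeff_zero]
    have hdeg := coeff_resI (g j0) (gc 0 j0) (gI j0) m (hgc 0 j0) (hgI j0)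
    have hPc : ∀ c, res0 (gc c j0) ≠ 0 ∧ (res0 (gc c j0)).natDegree ≤ m := by
      intro c
      have h1 : (X + C c : ℂ[X]).natDegree = 1 := natDegree_X_add_C c
      constructor
      · intro h
        have h2 := ord_comp (res0 (gc 0 j0)) hP0 c
        rw [hresc] at h
        rw [h, coeff_zero] at h2
        exact h2.2 rfl
      · rw [hresc, natDegree_comp, h1, mul_one]
        exact hdeg.1
    have hPI : res1 (gI j0) ≠ 0 := by
      intro h
      have h2 := hdeg.2.2 (m - (res0 (gc 0 j0)).natDegree) (by omega)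
      rw [h, coeff_zero] at h2
      have h3 : m - (m - (res0 (gc 0 j0)).natDegree) = (res0 (gc 0 j0)).natDegree := by
        have := hdeg.1
        omega
      rw [h3] at h2
      exact hP0 (leadingCoeff_eq_zero.1 h2.symm)
    have hmc : ∀ c m', IsMult (gc c) m' → m' ≤ m := by
      intro c m' hm'
      obtain ⟨g', hg'⟩ := hm'.2
      exact le_of_dvd (hPc c).1 (hPc c).2 (res0_of_chartI (hg' j0))
    have hmI : ∀ m', IsMult gI m' → m' ≤ m := by
      intro m' hm'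
      obtain ⟨g', hg'⟩ := hm'.1
      exact le_of_dvd hPI hdeg.2.1 (res1_of_chart0 (hg' j0))
    have hresI : ∀ j, res0 (g j) = X ^ m * res0 (gI j) := fun j => res0_of_chartI (hgI j)
    have hres0 : ∀ j, res1 (g j) = X ^ m * res1 (gc 0 j) := fun j => res1_of_chart0 (hgc 0 j)
    -- the analysis of the new exceptional curve
    have han := fun hA => blow_analysisM f b H hb g a0 n0 a1 n1 hn0 hn1 inv.geom m hm gc gI hgc hgI S
      h0S hS hJ1 inv.hJ2 inv.hJ2' inv.hz0 inv.hz1 s0 hs0 hA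
    have haz : a0 + a1 + m = 0 → n0 + n1 = 1 := by omega
    -- the invariants of the children
    have inv0 : InvL H f s0 (gc 0) (a0 + a1 + m) (n0 + n1) a1 n1 :=
      { geom := geom_chart0L H f g (gc 0) a0 n0 a1 n1 hn0 hn1 inv.geom m (hgc 0)
        hn0 := by omega
        hn1 := hn1
        hz0 := haz
        hz1 := inv.hz1
        hJ1 := fun m' hm' => ⟨arith3 a0 n0 a1 n1 m m' hn0 hn1 (hmc 0 m' hm') hJ1.1 hJ1.2,
          (Nat.mul_le_mul_left _ (hmc 0 m' hm')).trans hJ1.2⟩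
        hJ2 := fun _ => arith1 a0 n0 a1 n1 m hn0 hn1 hm inv.hz0 inv.hJ2
        hJ2' := fun ha1 => arith2 a0 n0 a1 n1 m hn0 hn1 ha1 hJ1.2 inv.hJ2'
        hH0 := by
          intro hA μ' hμ'
          obtain ⟨μ, μI, hμ, hμI, h2, h3, h4, h5⟩ := han hA
          rwa [← (hμ 0).unique hμ']
        hH1 := by
          intro hA1 μ' hμ'
          have h2 := inv.hH1 hA1 (m + μ') (hμ'.shift hres0)
          intro h3
          apply h2
          push_cast at h3 ⊢
          linear_combination h3 - hA1 }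
    have invc : ∀ c, c ≠ 0 → InvL H f s0 (gc c) (a0 + a1 + m) (n0 + n1) 0 1 := fun c hc0 =>
      { geom := geom_chartL H f g (gc c) a0 n0 a1 n1 hn0 hn1 inv.geom m c hc0 (hgc c)
        hn0 := by omega
        hn1 := le_rfl
        hz0 := haz
        hz1 := fun _ => rfl
        hJ1 := fun m' hm' => ⟨arith3 a0 n0 a1 n1 m m' hn0 hn1 (hmc c m' hm') hJ1.1 hJ1.2,
          by simp⟩
        hJ2 := fun h => by rw [mul_zero, mul_one]; exact h
        hJ2' := fun h => absurd h (lt_irrefl 0)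
        hH0 := by
          intro hA μ' hμ'
          obtain ⟨μ, μI, hμ, hμI, h2, h3, h4, h5⟩ := han hA
          have h6 := h4 c hc0
          rw [(hμ c).unique hμ'] at h6
          rw [zero_add]
          push_cast
          exact h6
        hH1 := by
          intro hA1
          simp at hA1 }
    have invI : InvL H f s0 gI a0 n0 (a0 + a1 + m) (n0 + n1) :=
      { geom := geom_chartIL H f g gI a0 n0 a1 n1 hn0 hn1 inv.geom m hgI
        hn0 := hn0
        hn1 := by omega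
        hz0 := inv.hz0
        hz1 := haz
        hJ1 := fun m' hm' => ⟨(Nat.mul_le_mul_left _ (hmI m' hm')).trans hJ1.1,
          arith3 a0 n0 a1 n1 m m' hn0 hn1 (hmI m' hm') hJ1.1 hJ1.2⟩
        hJ2 := fun ha0 => by
          have := arith2 a1 n1 a0 n0 m hn1 hn0 ha0 hJ1.1 inv.hJ2
          rwa [add_comm a1 a0, add_comm n1 n0] at this
        hJ2' := fun _ => by
          have := arith1 a1 n1 a0 n0 m hn1 hn0 hm inv.hz1 inv.hJ2'
          rwa [add_comm a1 a0, add_comm n1 n0] at this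
        hH0 := by
          intro hA0 μ' hμ'
          have h2 := inv.hH0 hA0 (m + μ') (hμ'.shift hresI)
          intro h3
          apply h2
          push_cast at h3 ⊢
          linear_combination h3 - hA0
        hH1 := by
          intro hA μ' hμ'
          obtain ⟨μ, μI, hμ, hμI, h2, h3, h4, h5⟩ := han hA
          rwa [← hμI.unique hμ'] }
    obtain ⟨c00, m00, c01, m01, h00, h01, h02⟩ := ih0 inv0
    obtain ⟨cI0, mI0, cI1, mI1, hI0, hI1, hI2⟩ := ihI invI
    have hcc : ∀ c ∈ S.erase 0, ∃ κ : PowerSeries M, κ ∈ DenRing L (Kn s0) ∧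
        (((n0 + n1 : ℕ) : ℂ) + ((a0 + a1 + m : ℕ) : ℂ) * s0 = 0 → ∀ μ, Ord0 (gc c) μ →
          κ = mf L μ 1) ∧
        Zc c - κ * mf L (a0 + a1 + m) (n0 + n1) ∈ DenRing L (Kn s0) := by
      intro c hcS
      rw [Finset.mem_erase] at hcS
      obtain ⟨κ, mκ, κ', mκ', h2, h3, h4⟩ := ihc c hcS.2 hcS.1 (invc c hcS.1)
      refine ⟨κ, mκ, ?_, ?_⟩
      · intro hA μ hμ
        have h5 := h2 hA μ hμ
        rw [zero_add] at h5
        exact h5
      · have h5 := (DenRing L (Kn s0)).add_mem h4 mκ'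
        rw [mf_zero, mul_one, sub_add_cancel] at h5
        exact h5
    choose! κ hκ0 hκ1 hκ2 using hcc
    set facE := mf L (a0 + a1 + m) (n0 + n1) with hfacE
    set β : PowerSeries M := cI1 + c00 + ∑ c ∈ S.erase 0, κ c
      + PowerSeries.C ((L : M) - (S.card : M)) with hβ
    have hβE : β * facE ∈ DenRing L (Kn s0) := by
      by_cases hA : ((n0 + n1 : ℕ) : ℂ) + ((a0 + a1 + m : ℕ) : ℂ) * s0 = 0
      · obtain ⟨μ, μI, hμ, hμI, h2, h3, h4, u1, k1, u2, k2, h5, h6, h7, h8, h9, h10, h11, h12,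
          h13⟩ := han hA
        have e2 := hI1 hA μI hμI
        have e3 := h00 hA (μ 0) (hμ 0)
        have e4 : ∀ c ∈ S.erase 0, κ c = mf L (μ c) 1 := fun c hcS => hκ1 c hcS hA (μ c) (hμ c)
        have e5 := h13 (PowerSeries M) (fun a n => mf L a n) (PowerSeries.C (L : M)) (mf_zero L 1)
        have e6 : β = mf L u1 k1 + mf L u2 k2 + PowerSeries.C ((L : M) - 1) := by
          rw [hβ, Finset.sum_congr rfl e4, e2, e3, map_sub, map_natCast, map_sub, map_one]
          exact e5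
        rw [e6, hfacE]
        refine beta_mem h5 h6 (by omega) h7 h8 h9 h10 ?_ ?_
        · intro _
          rw [Kn, mul_comm]
          exact h11
        · intro _
          rw [Kn, mul_comm]
          exact h12
      · exact (DenRing L (Kn s0)).mul_mem ((DenRing L (Kn s0)).add_mem ((DenRing L (Kn s0)).add_mem
          ((DenRing L (Kn s0)).add_mem mI1 m00) (Subring.sum_mem _ hκ0)) (C_mem _))
          (mfK L (by omega) hA)
    have hsum : ∑ c ∈ S.erase 0, (Zc c - κ c * facE) ∈ DenRing L (Kn s0) :=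
      Subring.sum_mem _ fun c hcS => hκ2 c hcS
    rw [Finset.sum_sub_distrib, ← Finset.sum_mul] at hsum
    have hfin := (DenRing L (Kn s0)).add_mem ((DenRing L (Kn s0)).add_mem
      ((DenRing L (Kn s0)).add_mem h02 hI2) hsum) hβE
    have heq : ZI + ∑ c ∈ S, Zc c + PowerSeries.C ((L : M) - (S.card : M)) * facE
          - cI0 * mf L a0 n0 - c01 * mf L a1 n1
        = Zc 0 - c00 * facE - c01 * mf L a1 n1
          + (ZI - cI0 * mf L a0 n0 - cI1 * facE)
          + (∑ c ∈ S.erase 0, Zc c - (∑ c ∈ S.erase 0, κ c) * facE)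
          + β * facE := by
      rw [← Finset.add_sum_erase S Zc h0S, hβ]
      ring
    rw [← heq] at hfin
    -- the correction terms
    have hcor0 : ∃ c0 ∈ DenRing L (Kn s0),
        ((n0 : ℂ) + a0 * s0 = 0 → ∀ μ, Ord0 g μ → c0 = mf L (a1 + μ) n1) ∧
        (cI0 - c0) * mf L a0 n0 ∈ DenRing L (Kn s0) := by
      by_cases hc : (n0 : ℂ) + a0 * s0 = 0 ∧ ∃ μ, Ord0 g μ
      · obtain ⟨hA0, μ, hμ⟩ := hc
        have hnz := inv.hH0 hA0 μ hμ
        obtain ⟨ν, rfl, hν⟩ := hμ.unshift hresI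
        have h2 := hI0 hA0 ν hν
        have ha0 : 1 ≤ a0 := Nat.one_le_iff_ne_zero.2 (a_ne_zero inv.hz0 hA0)
        have hK1 : Kn s0 (a1 + (m + ν)) n1 := by
          rw [Kn, mul_comm]
          exact hnz
        have hK2 : Kn s0 (a0 + (a1 + (m + ν))) (n0 + n1) := by
          rw [Kn]
          intro h3
          apply hnz
          push_cast at h3 ⊢
          linear_combination h3 - hA0
        refine ⟨mf L (a1 + (m + ν)) n1, mf_mem hn1 fun _ => hK1, ?_, ?_⟩
        · intro _ μ' hμ'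
          rw [← hμ.unique hμ']
        · rw [h2, show a0 + a1 + m + ν = a0 + (a1 + (m + ν)) by omega]
          exact pass_mem ha0 (by omega) hn0 hn1 hK1 hK2
      · refine ⟨cI0, mI0, ?_, ?_⟩
        · intro h1 μ hμ
          exact absurd ⟨h1, μ, hμ⟩ hc
        · rw [sub_self, zero_mul]
          exact (DenRing L (Kn s0)).zero_mem
    have hcor1 : ∃ c1 ∈ DenRing L (Kn s0),
        ((n1 : ℂ) + a1 * s0 = 0 → ∀ μ, Ord1 g μ → c1 = mf L (a0 + μ) n0) ∧
        (c01 - c1) * mf L a1 n1 ∈ DenRing L (Kn s0) := by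
      by_cases hc : (n1 : ℂ) + a1 * s0 = 0 ∧ ∃ μ, Ord1 g μ
      · obtain ⟨hA1, μ, hμ⟩ := hc
        have hnz := inv.hH1 hA1 μ hμ
        obtain ⟨ν, rfl, hν⟩ := hμ.unshift hres0
        have h2 := h01 hA1 ν hν
        have ha1 : 1 ≤ a1 := Nat.one_le_iff_ne_zero.2 (a_ne_zero inv.hz1 hA1)
        have hK1 : Kn s0 (a0 + (m + ν)) n0 := by
          rw [Kn, mul_comm]
          exact hnz
        have hK2 : Kn s0 (a1 + (a0 + (m + ν))) (n1 + n0) := by
          rw [Kn]
          intro h3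
          apply hnz
          push_cast at h3 ⊢
          linear_combination h3 - hA1
        refine ⟨mf L (a0 + (m + ν)) n0, mf_mem hn0 fun _ => hK1, ?_, ?_⟩
        · intro _ μ' hμ'
          rw [← hμ.unique hμ']
        · rw [h2, show a0 + a1 + m + ν = a1 + (a0 + (m + ν)) by omega, add_comm n0 n1]
          exact pass_mem ha1 (by omega) hn1 hn0 hK1 hK2
      · refine ⟨c01, m01, ?_, ?_⟩
        · intro h1 μ hμ
          exact absurd ⟨h1, μ, hμ⟩ hc
        · rw [sub_self, zero_mul]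
          exact (DenRing L (Kn s0)).zero_mem
    obtain ⟨c0, mc0, hc0, hc0'⟩ := hcor0
    obtain ⟨c1, mc1, hc1', hc1''⟩ := hcor1
    refine ⟨c0, mc0, c1, mc1, hc0, hc1', ?_⟩
    have := (DenRing L (Kn s0)).add_mem ((DenRing L (Kn s0)).add_mem hfin hc0') hc1''
    convert this using 1
    ring

end Pool.Agent.W574.MO
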