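import Pool.Agent.W574.MO.Ufd
import Pool.Agent.W574.MO.Node

set_option autoImplicit false
set_option linter.unusedSectionVars false
set_option linter.unusedVariables false

/-! # The motivic contribution of a point: simultaneous removal of all denominators -/

namespace Pool.Agent.W574.MO

open Pool.Agent.W574.SM Pool.Agent.W574.LM

variable {M : Type} [CommRing M] (L : Mˣ)

/-- the homomorphism `ℤ[L, L⁻¹] → M` -/
noncomputable def phi : AA →+* M := LaurentPolynomial.eval₂ (Int.castRingHom M) L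

theorem phi_LL : phi L ((LL : AAˣ) : AA) = L := by
  have := LaurentPolynomial.eval₂_T_n (Int.castRingHom M) L 1
  rw [pow_one] at this
  exact this

theorem phi_pow (n : ℕ) : phi L ((LL⁻¹ ^ n : AAˣ) : AA) = ((L⁻¹ ^ n : Mˣ) : M) := by
  have h1 : phi L ((LL⁻¹ : AAˣ) : AA) = ((L⁻¹ : Mˣ) : M) := by
    have h2 : phi L ((LL : AAˣ) : AA) * phi L ((LL⁻¹ : AAˣ) : AA) = 1 := by
      rw [← map_mul, ← Units.val_mul, mul_inv_cancel, Units.val_one, map_one]
    rw [phi_LL] at h2
    rw [← Units.inv_mul_cancel_left L (phi L ((LL⁻¹ : AAˣ) : AA)), h2, mul_one]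
  rw [Units.val_pow_eq_pow_val, map_pow, h1, Units.val_pow_eq_pow_val]

/-- the homomorphism of the rings of power series -/
noncomputable def Phi : PowerSeries AA →+* PowerSeries M := PowerSeries.map (phi L)

theorem Phi_C (x : AA) : Phi L (PowerSeries.C x) = PowerSeries.C (phi L x) :=
  PowerSeries.map_C _ _

theorem Phi_qq (a n : ℕ) : Phi L (qq LL a n) = qq L a n := by
  rw [qq, qq, map_mul, map_pow, Phi_C, phi_pow, Phi, PowerSeries.map_X]

theorem Phi_geo {a : ℕ} (ha : 1 ≤ a) (n : ℕ) : Phi L (geo LL a n) = geo L a n := by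
  have h1 := congrArg (Phi L) (geo_mul LL ha n)
  rw [map_mul, map_sub, map_one, Phi_qq] at h1
  have h2 := geo_mul L ha n
  calc Phi L (geo LL a n) = (1 - qq L a n) * geo L a n * Phi L (geo LL a n) := by rw [h2, one_mul]
    _ = geo L a n * ((1 - qq L a n) * Phi L (geo LL a n)) := by ring
    _ = geo L a n := by rw [h1, mul_one]

theorem Phi_mf (a n : ℕ) : Phi L (mf LL a n) = mf L a n := by
  rcases Nat.eq_zero_or_pos a with h | h
  · rw [h, mf_zero, mf_zero, map_one]
  · rw [mf_pos LL h, mf_pos L h, map_mul, map_mul, Phi_C, Phi_qq, Phi_geo L h, map_sub, map_one,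
      phi_LL]

theorem Phi_mem {K : ℕ → ℕ → Prop} {x : PowerSeries AA} (hx : x ∈ DenRing LL K) :
    Phi L x ∈ DenRing L K := by
  induction hx using Subring.closure_induction with
  | mem x hx =>
    rcases hx with ⟨P, rfl⟩ | ⟨a, n, ha, hn, hK, h⟩
    · refine Subring.subset_closure (Or.inl ⟨P.map (phi L), ?_⟩)
      exact Polynomial.polynomial_map_coe
    · refine Subring.subset_closure (Or.inr ⟨a, n, ha, hn, hK, ?_⟩)
      have h1 := congrArg (Phi L) h
      have h2 := Phi_qq L a n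
      rw [qq, qq] at h2
      rw [map_mul, map_sub, map_one, h2] at h1
      exact h1
  | zero => rw [map_zero]; exact (DenRing L K).zero_mem
  | one => rw [map_one]; exact (DenRing L K).one_mem
  | add x y _ _ hx hy => rw [map_add]; exact (DenRing L K).add_mem hx hy
  | neg x _ hx => rw [map_neg]; exact (DenRing L K).neg_mem hx
  | mul x y _ _ hx hy => rw [map_mul]; exact (DenRing L K).mul_mem hx hy

/-- the contribution of a point comes from the ring `ℤ[L, L⁻¹]` -/
theorem exists_univ {ι : Type} {g : ι → MP} {a0 n0 a1 n1 : ℕ} {Z : PowerSeries M}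
    (hZ : MotLocal L g a0 n0 a1 n1 Z) :
    ∃ Z0 : PowerSeries AA, MotLocal LL g a0 n0 a1 n1 Z0 ∧ Phi L Z0 = Z := by
  classical
  induction hZ with
  | unit g a0 n0 a1 n1 j hj =>
    exact ⟨_, MotLocal.unit g a0 n0 a1 n1 j hj, by rw [map_mul, Phi_mf, Phi_mf]⟩
  | curveV g a0 n0 m hm h k hg h0 h1 j hj =>
    exact ⟨_, MotLocal.curveV g a0 n0 m hm h k hg h0 h1 j hj, by rw [map_mul, Phi_mf, Phi_mf]⟩
  | curveU g a1 n1 m hm h k hg h0 h1 j hj =>
    exact ⟨_, MotLocal.curveU g a1 n1 m hm h k hg h0 h1 j hj, by rw [map_mul, Phi_mf, Phi_mf]⟩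
  | blowup g a0 n0 a1 n1 m hm gc gI hgc hgI S h0S hS Zc ZI h0 hc hI ih0 ihc ihI =>
    obtain ⟨Y0, hY0, e0⟩ := ih0
    obtain ⟨YI, hYI, eI⟩ := ihI
    have hch : ∀ c : ℂ, ∃ Y : PowerSeries AA, (c ∈ S → c ≠ 0 →
        MotLocal LL (gc c) (a0 + a1 + m) (n0 + n1) 0 1 Y ∧ Phi L Y = Zc c) := by
      intro c
      by_cases hcS : c ∈ S ∧ c ≠ 0
      · obtain ⟨Y, hY, e⟩ := ihc c hcS.1 hcS.2
        exact ⟨Y, fun _ _ => ⟨hY, e⟩⟩
      · exact ⟨0, fun h1 h2 => absurd ⟨h1, h2⟩ hcS⟩
    choose Y hY using hch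
    let Yc : ℂ → PowerSeries AA := fun c => if c = 0 then Y0 else Y c
    have hYc : ∀ c ∈ S, Phi L (Yc c) = Zc c := by
      intro c hcS
      by_cases h : c = 0
      · simp only [Yc, if_pos h]
        rw [h]
        exact e0
      · simp only [Yc, if_neg h]
        exact (hY c hcS h).2
    refine ⟨_, MotLocal.blowup g a0 n0 a1 n1 m hm gc gI hgc hgI S h0S hS Yc YI ?_ ?_ hYI, ?_⟩
    · simp only [Yc, if_pos]
      exact hY0
    · intro c hcS h
      simp only [Yc, if_neg h]
      exact (hY c hcS h).1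
    · rw [map_add, map_add, map_sum, eI, Finset.sum_congr rfl hYc, map_mul, Phi_mf, Phi_C, map_sub,
        phi_LL, map_natCast]

theorem mem_all {ι : Type} {g : ι → MP} {a0 n0 a1 n1 : ℕ} {Z : PowerSeries M}
    (hZ : MotLocal L g a0 n0 a1 n1 Z) (hn0 : 1 ≤ n0) (hn1 : 1 ≤ n1) :
    Z ∈ DenRing L (fun _ _ => True) := by
  classical
  have hmf : ∀ {a n : ℕ}, 1 ≤ n → mf L a n ∈ DenRing L (fun _ _ => True) :=
    fun hn => mf_mem hn fun _ => trivial
  induction hZ with
  | unit g a0 n0 a1 n1 j hj => exact Subring.mul_mem _ (hmf hn0) (hmf hn1)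
  | curveV g a0 n0 m hm h k hg h0 h1 j hj => exact Subring.mul_mem _ (hmf hn0) (hmf le_rfl)
  | curveU g a1 n1 m hm h k hg h0 h1 j hj => exact Subring.mul_mem _ (hmf hn1) (hmf le_rfl)
  | blowup g a0 n0 a1 n1 m hm gc gI hgc hgI S h0S hS Zc ZI h0 hc hI ih0 ihc ihI =>
    refine Subring.add_mem _ (Subring.add_mem _ (ihI hn0 (by omega)) ?_)
      (Subring.mul_mem _ (C_mem _) (hmf (by omega)))
    refine Subring.sum_mem _ fun c hcS => ?_
    by_cases h : c = 0
    · rw [h]
      exact ih0 (by omega) hn1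
    · exact ihc c hcS h (by omega) le_rfl

variable {ι : Type} [Fintype ι] [DecidableEq ι]

/-- the denominators which belong to roots of `b` -/
def Kb (b : Polynomial ℂ) (a n : ℕ) : Prop := b.eval (-(n : ℂ) / a) = 0

theorem inv_initialL (H : MP) (f : ι → MP) (P : Fin 2 → ℂ) (hH : MvPolynomial.eval P H ≠ 0)
    (s0 : ℂ) : InvL H f s0 (fun j => translate P (f j)) 0 1 0 1 := by
  have hjac : jac (fun i => MvPolynomial.X i + MvPolynomial.C (P i) : Fin 2 → MP) = 1 := by
    rw [jac, Matrix.det_fin_two]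
    simp only [Matrix.of_apply, map_add, MvPolynomial.pderiv_C]
    rw [MvPolynomial.pderiv_X_self, MvPolynomial.pderiv_X_self,
      MvPolynomial.pderiv_X_of_ne (by decide), MvPolynomial.pderiv_X_of_ne (by decide)]
    ring
  have hcc : ∀ q : MP, MvPolynomial.constantCoeff
      (MvPolynomial.aeval (fun i => MvPolynomial.X i + MvPolynomial.C (P i) : Fin 2 → MP) q)
      = MvPolynomial.eval P q := by
    intro q
    induction q using MvPolynomial.induction_on with
    | C a => rw [MvPolynomial.aeval_C, MvPolynomial.eval_C]; exact MvPolynomial.constantCoeff_C _ a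
    | add p q hp hq => rw [map_add, map_add, hp, hq, map_add]
    | mul_X p i hp => rw [map_mul, map_mul, hp, map_mul, MvPolynomial.aeval_X]; simp
  exact
    { geom := ⟨fun i => MvPolynomial.X i + MvPolynomial.C (P i), 1, 1, by simp, by simp,
        fun j => by
          rw [pow_zero, pow_zero, mul_one, mul_one, one_mul]
          rfl, by
          rw [hjac, Nat.sub_self, pow_zero, pow_zero, mul_one, mul_one], by
          rw [hcc]; exact hH⟩
      hn0 := le_rfl
      hn1 := le_rfl
      hz0 := fun _ => rfl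
      hz1 := fun _ => rfl
      hJ1 := fun m _ => by simp
      hJ2 := fun h => absurd h (lt_irrefl 0)
      hJ2' := fun h => absurd h (lt_irrefl 0)
      hH0 := fun h => by simp at h
      hH1 := fun h => by simp at h }

/-- **The denominators of the motivic contribution of the point `P`** belong to roots of `b`, if
`b` satisfies a functional equation near `P`. -/
theorem point_mot (f : ι → MP) (b : Polynomial ℂ) (H : MP) (hb : IsLocEq H f b) (P : Fin 2 → ℂ)
    (hH : MvPolynomial.eval P H ≠ 0) (Z : PowerSeries M)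
    (hZ : MotLocal L (fun j => translate P (f j)) 0 1 0 1 Z) : Z ∈ DenRing L (Kb b) := by
  classical
  obtain ⟨Z0, hZ0, rfl⟩ := exists_univ L hZ
  apply Phi_mem
  obtain ⟨s, hs, Q, hQ⟩ := exists_denom (mem_all LL hZ0 le_rfl le_rfl)
  refine descent (Kb b) Z0 s (fun p hp => ⟨(hs p hp).1, (hs p hp).2.1⟩) ?_ Q hQ
  intro a n ha hn hne
  have hac : (a : ℂ) ≠ 0 := Nat.cast_ne_zero.2 (by omega)
  obtain ⟨c0, m0, c1, m1, _, _, h1⟩ := local_mainM LL f b H hb (-(n : ℂ) / a) hne hZ0
    (inv_initialL H f P hH _)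
  rw [mf_zero, mul_one, mul_one] at h1
  have h2 := (DenRing LL (Kn (-(n : ℂ) / a))).add_mem ((DenRing LL (Kn (-(n : ℂ) / a))).add_mem h1
    m1) m0
  rw [sub_add_cancel, sub_add_cancel] at h2
  refine Subring.closure_mono (Set.union_subset_union_right _ ?_) h2
  rintro u ⟨a', n', ha', hn', hK, hu⟩
  refine ⟨a', n', ha', hn', ?_, hu⟩
  intro h3
  apply hK
  have h4 : (n : ℂ) * a' = n' * a := by exact_mod_cast h3
  field_simp
  linear_combination -h4

end Pool.Agent.W574.MO
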